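import Mathlib
import Pool.Agent.H115R3.Filling.Defs
import Pool.Agent.H115R3.Filling.Main

/-!
# A lower bound for the area of orientable fillings of the circle, of any genus

If a compact oriented Riemannian surface fills the circle of length `2π` without shortcuts, then
its area is at least `14 ζ(3) / π ≈ 1.705 π`.
-/

namespace Pool.Agent.Results.MP_ecf18f_gt.AreaAtLeast1705Pi

open Pool.Agent.H115R3.Filling

/-- Every compact oriented Riemannian surface whose boundary is the circle of length `2π` and in
which the boundary circle has no shortcuts has area at least `14 ζ(3) / π`, where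
`ζ(3) = ∑_{m ≥ 0} 1 / (m + 1)³`. -/
theorem result {M : Type} [MetricSpace M] (S : OrientedSurface M) (hS : S.NoShortcut) :
    14 * (∑' m : ℕ, 1 / ((m : ℝ) + 1) ^ 3) / Real.pi ≤ S.area :=
  area_ge S hS

end Pool.Agent.Results.MP_ecf18f_gt.AreaAtLeast1705Pi
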